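import Pool.Agent.H19.FD.Moe
import Pool.Agent.H34.FC.Lift
import Pool.Agent.H29.C3.FrOrd
import Pool.Agent.H19.OD.Defs

/-!
# Frobenius' density theorem in the absolute Galois group
-/

open NumberField IsDedekindDomain Filter Topology Module H29.C3 Pool.Agent.H31.CF
open Pool.Agent.H34.FC Pool.Agent.H71.Patch Pool.Agent.H7.Artin
open scoped Pointwise

namespace Pool.Agent.H19.FD

/-- In the unramified case the Frobenius generates the decomposition group. -/
theorem zpowers_frob {K L : Type} [Field K] [NumberField K] [Field L] [NumberField L] [Algebra K L]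
    [IsGalois K L] (W : HeightOneSpectrum (𝓞 L)) (v : HeightOneSpectrum (𝓞 K))
    (hW : W.asIdeal.LiesOver v.asIdeal) (hv : Unr K L v) (σ : Gal(L/K))
    (hσ : IsArithFrobAt (𝓞 K) σ W.asIdeal) :
    Subgroup.zpowers σ = MulAction.stabilizer Gal(L/K) W.asIdeal := by
  have h1 : σ * (frob K L W)⁻¹ ∈ inertiaGroup K L W :=
    hσ.mul_inv_mem_inertia (isArithFrob_frob K L W)
  rw [hv W hW, Subgroup.mem_bot, mul_inv_eq_one] at h1
  have h2 : σ ∈ MulAction.stabilizer Gal(L/K) W.asIdeal := by
    rw [h1]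
    exact IsArithFrobAt.arithFrobAt_mem_stabilizer (𝓞 K) Gal(L/K) W.asIdeal
  refine Subgroup.eq_of_le_of_card_ge (by rwa [Subgroup.zpowers_le]) ?_
  rw [Nat.card_zpowers, card_stab W v hW hv, h1, orderOf_frob K L v hv W hW]

/-- **Frobenius' density theorem.** -/
theorem frobDiv (K : Type) [Field K] [NumberField K] : Pool.Agent.H19.OD.FrobDiv K := by
  intro M hM1 hM2 S hS x
  have hM : NumberField M := NumberField.of_module_finite K M
  obtain ⟨v, hvS, hvU, W, hW, hst⟩ := exists_stab K M S hS (AlgEquiv.restrictNormalHom M x)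
  obtain ⟨Q, hQ, hdec, φ, hφ, hφ'⟩ := lift_prime W v hW
  have hker : ∀ g : GalK K, AlgEquiv.restrictNormalHom M g = 1 ↔ g ∈ M.fixingSubgroup := by
    intro g
    rw [← MonoidHom.mem_ker, IntermediateField.restrictNormalHom_ker]
  refine ⟨v, hvS, Q, hQ, ?_, φ, hφ, ?_⟩
  · intro g hg
    have h1 := hdec g hg
    rw [hst] at h1
    obtain ⟨j, hj⟩ := Subgroup.mem_zpowers_iff.1 h1
    have h2 : x ^ (-j) * g ∈ M.fixingSubgroup := by
      rw [← hker, map_mul, map_zpow, ← hj, zpow_neg, inv_mul_cancel]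
    have h3 : g = x ^ j * (x ^ (-j) * g) := by
      rw [zpow_neg, mul_inv_cancel_left]
    rw [h3]
    exact Subgroup.mul_mem_sup (Subgroup.zpow_mem _ (Subgroup.mem_zpowers x) j) h2
  · have h1 := zpowers_frob W v hW hvU _ hφ'
    rw [hst] at h1
    have h2 : AlgEquiv.restrictNormalHom M x ∈
        Subgroup.zpowers (AlgEquiv.restrictNormalHom M φ : Gal(M/K)) := by
      rw [h1]
      exact Subgroup.mem_zpowers _
    rw [← mem_powers_iff_mem_zpowers] at h2
    obtain ⟨k, hk⟩ := h2
    refine ⟨k, ?_⟩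
    rw [← hker, map_mul, map_inv, map_pow]
    rw [show (AlgEquiv.restrictNormalHom M φ : Gal(M/K)) ^ k = AlgEquiv.restrictNormalHom M x from hk,
      inv_mul_cancel]

end Pool.Agent.H19.FD
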