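import Pool.Agent.H19.FD.Sum
import Pool.Agent.H98.C1.Bad

/-!
# Only the primes of degree one matter
-/

open NumberField IsDedekindDomain Filter Topology Module Pool.Agent.H98.C1 H29.C3

namespace Pool.Agent.H19.FD

variable (K E L : Type) [Field K] [NumberField K] [Field E] [NumberField E] [Field L]
  [NumberField L] [Algebra K E] [Algebra E L] [Algebra K L] [IsScalarTower K E L] [IsGalois K L]

/-- The prime `w` of `E` is of degree one over `K` and not above a prime in `T`. -/
def Good (T : Set (HeightOneSpectrum (𝓞 K))) (w : HeightOneSpectrum (𝓞 E)) : Prop :=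
  ∀ v : HeightOneSpectrum (𝓞 K), w.asIdeal.LiesOver v.asIdeal →
    v ∉ T ∧ w.asIdeal.inertiaDeg (𝓞 K) = 1

theorem fibre_card (v : HeightOneSpectrum (𝓞 K)) :
    {w : HeightOneSpectrum (𝓞 E) | w.asIdeal.LiesOver v.asIdeal}.Finite ∧
      {w : HeightOneSpectrum (𝓞 E) | w.asIdeal.LiesOver v.asIdeal}.ncard ≤ finrank K L := by
  classical
  choose un hun using exists_under E L
  have h1 : {w : HeightOneSpectrum (𝓞 E) | w.asIdeal.LiesOver v.asIdeal} ⊆ un '' ov K L v := by
    intro w hw
    obtain ⟨W, hW⟩ := exists_over E L w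
    refine ⟨W, ?_, ?_⟩
    · have h2 : w.asIdeal.LiesOver v.asIdeal := hw
      exact Ideal.LiesOver.trans W.asIdeal w.asIdeal v.asIdeal
    · apply HeightOneSpectrum.ext
      rw [(hun W).over, hW.over]
  have h2 := ov_finite K L v
  refine ⟨(h2.image un).subset h1, ?_⟩
  calc _ ≤ (un '' ov K L v).ncard := Set.ncard_le_ncard h1 (h2.image un)
    _ ≤ (ov K L v).ncard := Set.ncard_image_le h2
    _ ≤ _ := by rw [ov_ncard]; exact ncard_primesOver_le K L v

include L in
theorem tendsto_good (T : Set (HeightOneSpectrum (𝓞 K))) (hT : T.Finite) :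
    Tendsto (fun s : ℝ => (s - 1) * ∑' w : {w : HeightOneSpectrum (𝓞 E) // Good K E T w},
      lw E w.1 s) (𝓝[>] 1) (𝓝 1) := by
  classical
  choose un hun using exists_under K E
  have huniq : ∀ (w : HeightOneSpectrum (𝓞 E)) (v : HeightOneSpectrum (𝓞 K)),
      w.asIdeal.LiesOver v.asIdeal → un w = v := by
    intro w v hv
    apply HeightOneSpectrum.ext
    rw [(hun w).over, hv.over]
  have hfin : ∀ v, {w | un w = v}.Finite ∧ {w | un w = v}.ncard ≤ finrank K L := by
    intro v
    have h1 : {w | un w = v} = {w : HeightOneSpectrum (𝓞 E) | w.asIdeal.LiesOver v.asIdeal} := by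
      ext w
      constructor
      · rintro rfl
        exact hun w
      · exact huniq w v
    rw [h1]
    exact fibre_card K E L v
  let g : HeightOneSpectrum (𝓞 K) → ℝ := fun v =>
    2 * (Real.log (Ideal.absNorm v.asIdeal) / (Ideal.absNorm v.asIdeal : ℝ) ^ 2)
  let b : HeightOneSpectrum (𝓞 K) → ℝ := fun v => if v ∈ T then 1 else 0
  have hg0 : ∀ v, 0 ≤ g v := fun v => by
    have := Real.log_natCast_nonneg (Ideal.absNorm v.asIdeal)
    simp only [g]
    positivity
  have hb0 : ∀ v, 0 ≤ b v := fun v => by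
    simp only [b]
    split_ifs
    · exact zero_le_one
    · exact le_rfl
  have hgs : Summable g := summable_log_sq K
  have hbs : Summable b := by
    refine summable_of_hasFiniteSupport (hT.subset fun v hv => ?_)
    by_contra h0
    exact hv (if_neg h0)
  have hsum := summable_fibre un (finrank K L) hfin (fun v => g v + b v)
    (fun v => add_nonneg (hg0 v) (hb0 v)) (hgs.add hbs)
  set B : ℝ := ∑' w, (g (un w) + b (un w)) with hB
  have hN : ∀ w : HeightOneSpectrum (𝓞 E), (2 : ℝ) ≤ Ideal.absNorm w.asIdeal := fun w => by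
    exact_mod_cast Pool.Agent.H7.Artin.two_le_absNorm E w
  have hle : ∀ w : HeightOneSpectrum (𝓞 E), ¬ Good K E T w → ∀ s : ℝ, 1 < s →
      lw E w s ≤ g (un w) + b (un w) := by
    intro w hw s hs
    have h1 : lw E w s ≤ Real.log (Ideal.absNorm w.asIdeal) / (Ideal.absNorm w.asIdeal : ℝ) := by
      rw [lw, div_eq_mul_inv, ← Real.rpow_neg_one]
      refine mul_le_mul_of_nonneg_left ?_ (Real.log_natCast_nonneg _)
      exact Real.rpow_le_rpow_of_exponent_le (by linarith [hN w]) (by linarith)
    refine h1.trans ?_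
    by_cases hT' : un w ∈ T
    · have h3 : Real.log (Ideal.absNorm w.asIdeal) / (Ideal.absNorm w.asIdeal : ℝ) ≤ 1 := by
        rw [div_le_one (by linarith [hN w])]
        have := Real.log_le_sub_one_of_pos (show (0 : ℝ) < Ideal.absNorm w.asIdeal by
          linarith [hN w])
        linarith
      have h4 : b (un w) = 1 := if_pos hT'
      have h5 := hg0 (un w)
      linarith
    · have h2 : 2 ≤ w.asIdeal.inertiaDeg (𝓞 K) := by
        have h3 : w.asIdeal.inertiaDeg (𝓞 K) ≠ 1 := by
          intro h4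
          apply hw
          intro v hv
          rw [← huniq w v hv]
          exact ⟨hT', h4⟩
        have hwv := hun w
        have h4 : w.asIdeal.inertiaDeg (𝓞 K) ≠ 0 := by
          have h5 := absNorm_over K E w (un w) hwv
          intro h6
          rw [h6, pow_zero] at h5
          have := Pool.Agent.H7.Artin.two_le_absNorm E w
          omega
        omega
      have h3 : (Ideal.absNorm (un w).asIdeal : ℝ) ^ 2 ≤ Ideal.absNorm w.asIdeal := by
        have h4 := absNorm_over K E w (un w) (hun w)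
        have h5 := Pool.Agent.H7.Artin.two_le_absNorm K (un w)
        have h6 : Ideal.absNorm (un w).asIdeal ^ 2 ≤ Ideal.absNorm w.asIdeal := by
          rw [h4]
          exact Nat.pow_le_pow_right (by omega) h2
        exact_mod_cast h6
      have h4 : (2 : ℝ) ≤ Ideal.absNorm (un w).asIdeal := by
        exact_mod_cast Pool.Agent.H7.Artin.two_le_absNorm K (un w)
      have h5 := log_div_le h4 h3
      have h6 := hb0 (un w)
      have h7 : g (un w) = 2 * (Real.log (Ideal.absNorm (un w).asIdeal) /
        (Ideal.absNorm (un w).asIdeal : ℝ) ^ 2) := rfl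
      linarith
  have hgood : ∀ s : ℝ, 1 < s → ∑' w : {w : HeightOneSpectrum (𝓞 E) // Good K E T w}, lw E w.1 s ≤
      ∑' w, lw E w s := fun s hs => (summable_lw E hs).tsum_subtype_le _ {w | Good K E T w}
        (fun w => lw_nonneg E w s)
  have hbad : ∀ s : ℝ, 1 < s → ∑' w, lw E w s - B ≤
      ∑' w : {w : HeightOneSpectrum (𝓞 E) // Good K E T w}, lw E w.1 s := by
    intro s hs
    have h1 := summable_lw E hs
    have h2 : (∑' w : ({w | Good K E T w} : Set (HeightOneSpectrum (𝓞 E))), lw E w.1 s) +
        ∑' w : ({w | Good K E T w}ᶜ : Set (HeightOneSpectrum (𝓞 E))), lw E w.1 s =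
        ∑' w, lw E w s :=
      (h1.subtype {w | Good K E T w}).tsum_add_tsum_compl (h1.subtype {w | Good K E T w}ᶜ)
    have h8 : Summable fun w : ({w | Good K E T w}ᶜ : Set (HeightOneSpectrum (𝓞 E))) =>
        g (un w.1) + b (un w.1) := hsum.subtype _
    have h3 : ∑' w : ({w | Good K E T w}ᶜ : Set (HeightOneSpectrum (𝓞 E))), lw E w.1 s ≤ B :=
      calc _ ≤ ∑' w : ({w | Good K E T w}ᶜ : Set (HeightOneSpectrum (𝓞 E))),
          (g (un w.1) + b (un w.1)) :=
            Summable.tsum_le_tsum (fun w => hle w.1 w.2 s hs) (h1.subtype _) h8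
        _ ≤ _ := hsum.tsum_subtype_le _ _ (fun w => add_nonneg (hg0 _) (hb0 _))
    rw [← h2]
    have h4 : ∑' w : {w : HeightOneSpectrum (𝓞 E) // Good K E T w}, lw E w.1 s =
      ∑' w : ({w | Good K E T w} : Set (HeightOneSpectrum (𝓞 E))), lw E w.1 s := rfl
    rw [h4]
    linarith
  have h2 : Tendsto (fun s : ℝ => (s - 1) * (∑' w, lw E w s) - (s - 1) * B)
      (𝓝[>] 1) (𝓝 (1 - 0)) := by
    refine (tendsto_all E).sub ?_
    have h3 : Continuous fun s : ℝ => (s - 1) * B := by fun_prop
    have h4 := h3.tendsto 1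
    simp only [sub_self, zero_mul] at h4
    exact h4.mono_left nhdsWithin_le_nhds
  rw [sub_zero] at h2
  refine tendsto_of_tendsto_of_tendsto_of_le_of_le' h2 (tendsto_all E) ?_ ?_
  · filter_upwards [self_mem_nhdsWithin] with s hs
    have hs1 : (1 : ℝ) < s := hs
    rw [← mul_sub]
    exact mul_le_mul_of_nonneg_left (hbad s hs1) (by linarith)
  · filter_upwards [self_mem_nhdsWithin] with s hs
    have hs1 : (1 : ℝ) < s := hs
    exact mul_le_mul_of_nonneg_left (hgood s hs1) (by linarith)

end Pool.Agent.H19.FD
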