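import Pool.Agent.H19.FD.Bad
import Pool.Agent.H34.FC.Fib

/-!
# Primes with a given cyclic decomposition group
-/

open NumberField IsDedekindDomain Filter Topology Module Pool.Agent.H98.C1 H29.C3 Pool.Agent.H31.CF
open Pool.Agent.H34.FC
open scoped Pointwise

namespace Pool.Agent.H19.FD

section Group

variable {G : Type*} [Group G] [Finite G]

/-- every element generates one cyclic subgroup -/
theorem sum_gen (D : Subgroup G) [Fintype (Subgroup G)] [DecidablePred fun H : Subgroup G => H ≤ D] :
    ∑ H ∈ Finset.univ.filter (fun H : Subgroup G => H ≤ D),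
      Nat.card {x : G // Subgroup.zpowers x = H} = Nat.card D := by
  classical
  have : Fintype G := Fintype.ofFinite G
  have h1 : (Finset.univ.filter (fun x : G => x ∈ D)).card =
      ∑ H ∈ Finset.univ.filter (fun H : Subgroup G => H ≤ D),
        ((Finset.univ.filter (fun x : G => x ∈ D)).filter
          (fun x => Subgroup.zpowers x = H)).card := by
    refine Finset.card_eq_sum_card_fiberwise (f := fun x : G => Subgroup.zpowers x) ?_
    intro x hx
    have hx' : x ∈ D := by simpa using hx
    simpa using hx'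
  have h2 : Nat.card D = (Finset.univ.filter (fun x : G => x ∈ D)).card := by
    rw [Nat.card_eq_fintype_card, ← Fintype.card_subtype]
  rw [h2, h1]
  refine Finset.sum_congr rfl fun H hH => ?_
  have hH' : H ≤ D := by simpa using hH
  rw [Nat.card_eq_fintype_card, Fintype.card_subtype]
  congr 1
  ext x
  simp only [Finset.mem_filter, Finset.mem_univ, true_and]
  constructor
  · intro h
    refine ⟨?_, h⟩
    apply hH'
    rw [← h]
    exact Subgroup.mem_zpowers x
  · exact fun h => h.2

/-- Inversion over the lattice of subgroups. -/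
theorem tendsto_inv {l : Filter ℝ} (B : Subgroup G → ℝ → ℝ) [Fintype (Subgroup G)]
    [∀ D : Subgroup G, DecidablePred fun H : Subgroup G => H ≤ D]
    (h : ∀ D : Subgroup G, Tendsto
      (fun s => ∑ H ∈ Finset.univ.filter (fun H : Subgroup G => H ≤ D), B H s) l
      (𝓝 (Nat.card D : ℝ))) :
    ∀ (k : ℕ) (D : Subgroup G), Nat.card D = k →
      Tendsto (B D) l (𝓝 (Nat.card {x : G // Subgroup.zpowers x = D} : ℝ)) := by
  classical
  intro k
  induction k using Nat.strong_induction_on with
  | _ k ih =>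
  intro D hD
  have hmem : D ∈ Finset.univ.filter (fun H : Subgroup G => H ≤ D) := by simp
  have h1 : ∀ H ∈ (Finset.univ.filter (fun H : Subgroup G => H ≤ D)).erase D,
      Tendsto (B H) l (𝓝 (Nat.card {x : G // Subgroup.zpowers x = H} : ℝ)) := by
    intro H hH
    rw [Finset.mem_erase, Finset.mem_filter] at hH
    refine ih (Nat.card H) ?_ H rfl
    rw [← hD]
    refine lt_of_le_of_ne (Subgroup.card_le_of_le hH.2.2) fun he => hH.1 ?_
    exact Subgroup.eq_of_le_of_card_ge hH.2.2 he.ge
  have h2 := (h D).sub (tendsto_finsetSum _ h1)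
  have h3 : (Nat.card D : ℝ) - ∑ H ∈ (Finset.univ.filter (fun H : Subgroup G => H ≤ D)).erase D,
      (Nat.card {x : G // Subgroup.zpowers x = H} : ℝ) =
      (Nat.card {x : G // Subgroup.zpowers x = D} : ℝ) := by
    rw [← sum_gen D, Nat.cast_sum, ← Finset.add_sum_erase _ _ hmem]
    ring
  rw [h3] at h2
  refine h2.congr fun s => ?_
  rw [← Finset.add_sum_erase _ _ hmem]
  ring

end Group

variable (K L : Type) [Field K] [NumberField K] [Field L] [NumberField L] [Algebra K L]
  [IsGalois K L]

/-- The prime of `K` below `W`. -/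
noncomputable def und (W : HeightOneSpectrum (𝓞 L)) : HeightOneSpectrum (𝓞 K) :=
  (exists_under K L W).choose

omit [IsGalois K L] in
theorem und_over (W : HeightOneSpectrum (𝓞 L)) : W.asIdeal.LiesOver (und K L W).asIdeal :=
  (exists_under K L W).choose_spec

omit [IsGalois K L] in
theorem und_eq {W : HeightOneSpectrum (𝓞 L)} {v : HeightOneSpectrum (𝓞 K)}
    (h : W.asIdeal.LiesOver v.asIdeal) : und K L W = v := by
  apply HeightOneSpectrum.ext
  rw [(und_over K L W).over, h.over]

/-- The weight of `W`. -/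
noncomputable def wt (W : HeightOneSpectrum (𝓞 L)) (s : ℝ) : ℝ :=
  (Nat.card (MulAction.stabilizer Gal(L/K) W.asIdeal) : ℝ) * lw K (und K L W) s

theorem wt_nonneg (W : HeightOneSpectrum (𝓞 L)) (s : ℝ) : 0 ≤ wt K L W s :=
  mul_nonneg (Nat.cast_nonneg _) (lw_nonneg K _ s)

/-- The fibre sum. -/
theorem hasSum_stab (T : Set (HeightOneSpectrum (𝓞 K))) (hT : ∀ v, ¬ Unr K L v → v ∈ T)
    (D : Subgroup Gal(L/K)) {s : ℝ} (hs : 1 < s) :
    HasSum (fun W : {W : HeightOneSpectrum (𝓞 L) // und K L W ∉ T ∧
        MulAction.stabilizer Gal(L/K) W.asIdeal ≤ D} => wt K L W.1 s)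
      (Nat.card D * ∑' w : {w : HeightOneSpectrum (𝓞 (FF D)) // Good K (FF D) T w},
        lw (FF D) w.1 s) := by
  classical
  have hunr : ∀ v, v ∉ T → Unr K L v := fun v hv => by
    by_contra h
    exact hv (hT v h)
  -- the map to the primes of the fixed field
  have key : ∀ W : HeightOneSpectrum (𝓞 L), und K L W ∉ T →
      (und (FF D) L W).asIdeal.LiesOver (und K L W).asIdeal := by
    intro W _
    have h1 := und_over K L W
    have h2 := und_over (FF D) L W
    exact Ideal.LiesOver.tower_bot W.asIdeal (und (FF D) L W).asIdeal (und K L W).asIdeal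
  let p : {W : HeightOneSpectrum (𝓞 L) // und K L W ∉ T ∧
        MulAction.stabilizer Gal(L/K) W.asIdeal ≤ D} →
      {w : HeightOneSpectrum (𝓞 (FF D)) // Good K (FF D) T w} := fun W =>
    ⟨und (FF D) L W.1, by
      intro v hv
      have h1 := key W.1 W.2.1
      have h2 : v = und K L W.1 := by
        apply HeightOneSpectrum.ext
        rw [hv.over, h1.over]
      rw [h2]
      refine ⟨W.2.1, ?_⟩
      exact (stab_le_iff W.1 (und (FF D) L W.1) (und K L W.1) (und_over (FF D) L W.1) h1
        (hunr _ W.2.1)).1 W.2.2⟩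
  -- the fibres
  have hfib : ∀ w : {w : HeightOneSpectrum (𝓞 (FF D)) // Good K (FF D) T w},
      Finite {W // p W = w} ∧ ∑' W : {W // p W = w}, wt K L W.1.1 s = Nat.card D * lw (FF D) w.1 s := by
    intro w
    obtain ⟨v, hv⟩ := exists_under K (FF D) w.1
    obtain ⟨hvT, hdeg⟩ := w.2 v hv
    have hvU := hunr v hvT
    obtain ⟨W₀, hW₀⟩ := exists_over (FF D) L w.1
    have hc := card_fibre w.1 v hv hvU hdeg W₀ hW₀
    have hov : ∀ W' : HeightOneSpectrum (𝓞 L), W'.asIdeal.LiesOver w.1.asIdeal →
        und K L W' = v := by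
      intro W' hW'
      exact und_eq K L (Ideal.LiesOver.trans W'.asIdeal w.1.asIdeal v.asIdeal)
    let e : {W // p W = w} ≃
        {W' : HeightOneSpectrum (𝓞 L) | W'.asIdeal.LiesOver w.1.asIdeal} :=
      { toFun := fun W => ⟨W.1.1, by
          have h1 := und_over (FF D) L W.1.1
          have h2 : und (FF D) L W.1.1 = w.1 := congrArg Subtype.val W.2
          rw [h2] at h1
          exact h1⟩
        invFun := fun W' => ⟨⟨W'.1, by
            rw [hov W'.1 W'.2]
            exact ⟨hvT, (stab_le_iff W'.1 w.1 v W'.2 hv hvU).2 hdeg⟩⟩, by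
            apply Subtype.ext
            exact und_eq (FF D) L W'.2⟩
        left_inv := fun W => rfl
        right_inv := fun W => rfl }
    have hfinset : {W' : HeightOneSpectrum (𝓞 L) | W'.asIdeal.LiesOver w.1.asIdeal}.Finite := by
      by_contra hinf
      rw [Set.Infinite.ncard hinf, zero_mul] at hc
      exact (Nat.card_pos (α := D)).ne hc
    have hfin : Finite {W' : HeightOneSpectrum (𝓞 L) | W'.asIdeal.LiesOver w.1.asIdeal} := hfinset
    refine ⟨Finite.of_equiv _ e.symm, ?_⟩
    rw [← e.symm.tsum_eq]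
    have hval : ∀ W' : {W' : HeightOneSpectrum (𝓞 L) | W'.asIdeal.LiesOver w.1.asIdeal},
        wt K L (e.symm W').1.1 s =
          Nat.card (MulAction.stabilizer Gal(L/K) W₀.asIdeal) * lw (FF D) w.1 s := by
      intro W'
      have hW'2 : W'.1.asIdeal.LiesOver w.1.asIdeal := W'.2
      change wt K L W'.1 s = _
      unfold wt
      rw [hov W'.1 W'.2, card_stab_eq W'.1 W₀ v
        (Ideal.LiesOver.trans W'.1.asIdeal w.1.asIdeal v.asIdeal)
        (Ideal.LiesOver.trans W₀.asIdeal w.1.asIdeal v.asIdeal)]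
      congr 1
      unfold lw
      rw [absNorm_over K (FF D) w.1 v hv, hdeg, pow_one]
    simp_rw [hval]
    have : Fintype {W' : HeightOneSpectrum (𝓞 L) | W'.asIdeal.LiesOver w.1.asIdeal} :=
      Fintype.ofFinite _
    rw [tsum_fintype, Finset.sum_const, nsmul_eq_mul, Finset.card_univ, ← Nat.card_eq_fintype_card,
      Nat.card_coe_set_eq, ← mul_assoc, ← hc]
    push_cast
    ring
  have hE := (summable_lw (FF D) hs).subtype {w | Good K (FF D) T w}
  have hE' : Summable fun w : {w : HeightOneSpectrum (𝓞 (FF D)) // Good K (FF D) T w} =>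
      (Nat.card D : ℝ) * lw (FF D) w.1 s := Summable.mul_left _ hE
  have h1 : Summable ((fun W : {W : HeightOneSpectrum (𝓞 L) // und K L W ∉ T ∧
        MulAction.stabilizer Gal(L/K) W.asIdeal ≤ D} => wt K L W.1 s) ∘
      (Equiv.sigmaFiberEquiv p)) := by
    have hnn : ∀ x, 0 ≤ ((fun W : {W : HeightOneSpectrum (𝓞 L) // und K L W ∉ T ∧
        MulAction.stabilizer Gal(L/K) W.asIdeal ≤ D} => wt K L W.1 s) ∘
      (Equiv.sigmaFiberEquiv p)) x := fun x => wt_nonneg K L _ s
    rw [summable_sigma_of_nonneg hnn]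
    refine ⟨fun w => ?_, ?_⟩
    · have := (hfib w).1
      exact Summable.of_finite
    · refine hE'.congr fun w => ?_
      exact (hfib w).2.symm
  have h2 := (Equiv.sigmaFiberEquiv p).summable_iff.1 h1
  have h3 : ∑' W : {W : HeightOneSpectrum (𝓞 L) // und K L W ∉ T ∧
        MulAction.stabilizer Gal(L/K) W.asIdeal ≤ D}, wt K L W.1 s =
      Nat.card D * ∑' w : {w : HeightOneSpectrum (𝓞 (FF D)) // Good K (FF D) T w},
        lw (FF D) w.1 s := by
    rw [← (Equiv.sigmaFiberEquiv p).tsum_eq, ← tsum_mul_left]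
    refine (h1.tsum_sigma' fun w => ?_).trans (tsum_congr fun w => (hfib w).2)
    have := (hfib w).1
    exact Summable.of_finite
  rw [← h3]
  exact h2.hasSum

/-- **Frobenius' density theorem, existence.** Every cyclic subgroup is the decomposition group
of a prime of `L`, unramified over `K` and not above a prime in a given finite set. -/
theorem exists_stab (T : Set (HeightOneSpectrum (𝓞 K))) (hT : T.Finite) (c : Gal(L/K)) :
    ∃ v : HeightOneSpectrum (𝓞 K), v ∉ T ∧ Unr K L v ∧ ∃ W : HeightOneSpectrum (𝓞 L),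
      W.asIdeal.LiesOver v.asIdeal ∧
        MulAction.stabilizer Gal(L/K) W.asIdeal = Subgroup.zpowers c := by
  classical
  have : Fintype (Subgroup Gal(L/K)) := Fintype.ofFinite _
  by_contra hcon
  push Not at hcon
  set T' : Set (HeightOneSpectrum (𝓞 K)) := T ∪ {v | ¬ Unr K L v} with hT'
  have hT'f : T'.Finite := hT.union (finite_ram K L)
  have hT'u : ∀ v, ¬ Unr K L v → v ∈ T' := fun v hv => Or.inr hv
  let st : HeightOneSpectrum (𝓞 L) → Subgroup Gal(L/K) := fun W =>
    MulAction.stabilizer Gal(L/K) W.asIdeal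
  let F : Subgroup Gal(L/K) → ℝ → HeightOneSpectrum (𝓞 L) → ℝ := fun H s W =>
    if und K L W ∉ T' ∧ st W = H then wt K L W s else 0
  let A : Subgroup Gal(L/K) → ℝ → HeightOneSpectrum (𝓞 L) → ℝ := fun D s W =>
    if und K L W ∉ T' ∧ st W ≤ D then wt K L W s else 0
  have hA : ∀ (D : Subgroup Gal(L/K)) (s : ℝ), 1 < s → HasSum (A D s)
      (Nat.card D * ∑' w : {w : HeightOneSpectrum (𝓞 (FF D)) // Good K (FF D) T' w},
        lw (FF D) w.1 s) := by
    intro D s hs
    have h1 := hasSum_stab K L T' hT'u D hs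
    have h2 := (hasSum_subtype_iff_indicator (f := fun W => wt K L W s)
      (s := {W | und K L W ∉ T' ∧ MulAction.stabilizer Gal(L/K) W.asIdeal ≤ D})).1 h1
    have h3 : A D s = ({W | und K L W ∉ T' ∧
        MulAction.stabilizer Gal(L/K) W.asIdeal ≤ D} : Set (HeightOneSpectrum (𝓞 L))).indicator
          (fun W => wt K L W s) := by
      funext W
      rw [Set.indicator_apply]
      rfl
    rw [h3]
    exact h2
  have hF : ∀ (H : Subgroup Gal(L/K)) (s : ℝ), 1 < s → Summable (F H s) := by
    intro H s hs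
    refine Summable.of_nonneg_of_le (fun W => ?_) (fun W => ?_) (hA H s hs).summable
    · simp only [F]
      split_ifs
      · exact wt_nonneg K L W s
      · exact le_rfl
    · simp only [F, A]
      split_ifs with h1 h2 h2
      · exact le_rfl
      · exact absurd ⟨h1.1, h1.2.le⟩ h2
      · exact wt_nonneg K L W s
      · exact le_rfl
  have hsum : ∀ (D : Subgroup Gal(L/K)) (s : ℝ), 1 < s →
      ∑ H ∈ Finset.univ.filter (fun H : Subgroup Gal(L/K) => H ≤ D), ∑' W, F H s W =
      Nat.card D * ∑' w : {w : HeightOneSpectrum (𝓞 (FF D)) // Good K (FF D) T' w},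
        lw (FF D) w.1 s := by
    intro D s hs
    rw [← (hA D s hs).tsum_eq, ← Summable.tsum_finsetSum fun H _ => hF H s hs]
    refine tsum_congr fun W => ?_
    simp only [F, A]
    by_cases h1 : und K L W ∉ T'
    · by_cases h2 : st W ≤ D
      · rw [if_pos ⟨h1, h2⟩, Finset.sum_eq_single (st W)]
        · rw [if_pos ⟨h1, rfl⟩]
        · intro H _ hH
          rw [if_neg fun h => hH h.2.symm]
        · intro h
          exact absurd (by simpa using h2) h
      · rw [if_neg fun h => h2 h.2]
        refine Finset.sum_eq_zero fun H hH => ?_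
        rw [if_neg]
        rintro ⟨-, rfl⟩
        exact h2 (by simpa using hH)
    · rw [if_neg fun h => h1 h.1]
      exact Finset.sum_eq_zero fun H _ => if_neg fun h => h1 h.1
  have hlim : ∀ D : Subgroup Gal(L/K), Tendsto
      (fun s : ℝ => ∑ H ∈ Finset.univ.filter (fun H : Subgroup Gal(L/K) => H ≤ D),
        (s - 1) * ∑' W, F H s W) (𝓝[>] 1) (𝓝 (Nat.card D : ℝ)) := by
    intro D
    have h1 := (tendsto_good K (FF D) L T' hT'f).const_mul (Nat.card D : ℝ)
    rw [mul_one] at h1
    refine h1.congr' ?_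
    filter_upwards [self_mem_nhdsWithin] with s hs
    rw [← Finset.mul_sum, hsum D s hs]
    ring
  have h1 := tendsto_inv (fun H s => (s - 1) * ∑' W, F H s W) hlim _ (Subgroup.zpowers c) rfl
  have h2 : ∀ s, ∑' W, F (Subgroup.zpowers c) s W = 0 := by
    intro s
    rw [← tsum_zero (α := ℝ) (β := HeightOneSpectrum (𝓞 L))]
    refine tsum_congr fun W => ?_
    simp only [F]
    rw [if_neg]
    rintro ⟨h3, h4⟩
    have h5 : und K L W ∉ T := fun h => h3 (Or.inl h)
    have h6 : Unr K L (und K L W) := by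
      by_contra h
      exact h3 (Or.inr h)
    exact hcon _ h5 h6 W (und_over K L W) h4
  simp only [h2, mul_zero] at h1
  have h3 := tendsto_nhds_unique h1 tendsto_const_nhds
  have h4 : Nonempty {x : Gal(L/K) // Subgroup.zpowers x = Subgroup.zpowers c} := ⟨⟨c, rfl⟩⟩
  have h5 : 0 < Nat.card {x : Gal(L/K) // Subgroup.zpowers x = Subgroup.zpowers c} := Nat.card_pos
  have h6 : (Nat.card {x : Gal(L/K) // Subgroup.zpowers x = Subgroup.zpowers c} : ℝ) ≠ 0 := by
    exact_mod_cast h5.ne'
  exact h6 h3

end Pool.Agent.H19.FD
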