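import Pool.Agent.H98.C1.OfCore
import Pool.Agent.H98.C1.Gen
import Pool.Agent.H37.HK.ArFinal

/-!
# The sum over the primes of a number field, weighted with logarithms, has a simple pole at 1
-/

open NumberField IsDedekindDomain Filter Topology Pool.Agent.H98.C1

namespace Pool.Agent.H19.FD

theorem partB : PartB := partB_of_core fun _ _ _ => H37.HK.coreStmt

/-- The weight of the prime `w` -/
noncomputable def lw (E : Type) [Field E] [NumberField E] (w : HeightOneSpectrum (𝓞 E)) (s : ℝ) : ℝ :=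
  Real.log (Ideal.absNorm w.asIdeal) * (Ideal.absNorm w.asIdeal : ℝ) ^ (-s)

variable (E : Type) [Field E] [NumberField E]

theorem lw_nonneg (w : HeightOneSpectrum (𝓞 E)) (s : ℝ) : 0 ≤ lw E w s :=
  mul_nonneg (Real.log_natCast_nonneg _) (by positivity)

/-- all primes -/
def vmEquiv : Vm (⊤ : Ideal (𝓞 E)) ≃ HeightOneSpectrum (𝓞 E) where
  toFun w := w.1
  invFun w := ⟨w, fun h => w.isPrime.ne_top (top_le_iff.1 h)⟩
  left_inv _ := rfl
  right_inv _ := rfl

theorem exists_hyp_top : ∃ _ : Fintype (RC (⊤ : Ideal (𝓞 E))),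
    Nonempty (Hyp (Nv (⊤ : Ideal (𝓞 E))) (cv (⊤ : Ideal (𝓞 E)))) := by
  have hE := partB E ⊤ top_ne_bot
  have hF2 : Finite (RC (⊤ : Ideal (𝓞 E))) := finite_ray top_ne_bot hE
  exact ⟨Fintype.ofFinite _, exists_hyp top_ne_bot hE⟩

theorem summable_lw {s : ℝ} (hs : 1 < s) : Summable fun w : HeightOneSpectrum (𝓞 E) => lw E w s := by
  obtain ⟨_, ⟨h⟩⟩ := exists_hyp_top E
  rw [← (vmEquiv E).summable_iff]
  exact h.summable_prime hs

theorem tendsto_all :
    Tendsto (fun s : ℝ => (s - 1) * ∑' w, lw E w s) (𝓝[>] 1) (𝓝 1) := by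
  obtain ⟨_, ⟨h⟩⟩ := exists_hyp_top E
  obtain ⟨C, hC⟩ := h.exists_bound
  have h1 := h.tendsto_tm
  have h2 : Tendsto (fun s : ℝ => (s - 1) * (∑' p, tm (Nv (⊤ : Ideal (𝓞 E))) s p) - (s - 1) * C)
      (𝓝[>] 1) (𝓝 (1 - 0)) := by
    refine h1.sub ?_
    have h3 : Continuous fun s : ℝ => (s - 1) * C := by fun_prop
    have h4 := h3.tendsto 1
    simp only [sub_self, zero_mul] at h4
    exact h4.mono_left nhdsWithin_le_nhds
  rw [sub_zero] at h2
  have hPS : ∀ s, ∑' w, lw E w s = PS (Nv (⊤ : Ideal (𝓞 E))) Set.univ s := by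
    intro s
    rw [PS, tsum_univ fun v => Real.log (Nv (⊤ : Ideal (𝓞 E)) v) *
      (Nv (⊤ : Ideal (𝓞 E)) v : ℝ) ^ (-s), ← (vmEquiv E).tsum_eq]
    rfl
  refine tendsto_of_tendsto_of_tendsto_of_le_of_le' h2 h1 ?_ ?_
  · filter_upwards [self_mem_nhdsWithin] with s hs
    have hs1 : (1 : ℝ) < s := hs
    rw [hPS, ← mul_sub]
    exact mul_le_mul_of_nonneg_left (by linarith [hC s hs1]) (by linarith)
  · filter_upwards [self_mem_nhdsWithin] with s hs
    have hs1 : (1 : ℝ) < s := hs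
    rw [hPS]
    refine mul_le_mul_of_nonneg_left ?_ (by linarith)
    rw [PS, tsum_univ fun v => Real.log (Nv (⊤ : Ideal (𝓞 E)) v) *
      (Nv (⊤ : Ideal (𝓞 E)) v : ℝ) ^ (-s)]
    let i : Vm (⊤ : Ideal (𝓞 E)) → Σ _ : Vm (⊤ : Ideal (𝓞 E)), ℕ := fun x => ⟨x, 0⟩
    have hi : Function.Injective i := fun a b hab => by simpa [i] using hab
    have h10 := tsum_comp_le_tsum_of_inj (h.summable_tm hs1) (tm_nonneg s) hi
    refine le_trans (le_of_eq ?_) h10
    refine tsum_congr fun x => ?_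
    rw [Function.comp_apply]
    simp only [i, tm, zero_add, pow_one]

end Pool.Agent.H19.FD
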